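import Pool.Agent.MP_81f5b7_pr.G1.CLS

set_option autoImplicit false

namespace Pool.Agent.Results.MP_81f5b7_pr.ClassSizes

open Pool.Agent.MP_81f5b7_pr

/-- With probability tending to `1`, no proper 3-colouring of the final graph of the random
3-colourable graph process has a class with at least `0.525 n` or at most `0.147 n` vertices. -/
theorem result :
    Filter.Tendsto (fun n : ℕ =>
      (Nat.card {σ : Sym2 (Fin n) ≃ Fin (Fintype.card (Sym2 (Fin n))) //
        ∃ H : SimpleGraph (Fin n),
          (∀ e : Sym2 (Fin n), ¬ e.IsDiag →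
            (e ∈ H.edgeSet ↔
              (SimpleGraph.fromEdgeSet
                ({f : Sym2 (Fin n) | f ∈ H.edgeSet ∧ σ f < σ e} ∪ {e})).Colorable 3)) ∧
          ∃ c : H.Coloring (Fin 3), ∃ i : Fin 3,
            ((0.525 : ℝ) * (n : ℝ) ≤ (Nat.card {v : Fin n // c v = i} : ℝ) ∨
              (Nat.card {v : Fin n // c v = i} : ℝ) ≤ (0.147 : ℝ) * (n : ℝ))} : ℝ) /
      (Nat.card (Sym2 (Fin n) ≃ Fin (Fintype.card (Sym2 (Fin n)))) : ℝ))
      Filter.atTop (nhds 0) :=
  squeeze_zero (fun n => by positivity)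
    (fun n => G1.rowENC n fun H => ∃ c : H.Coloring (Fin 3), G1.Unb fun v => c v) G1.classesAll

end Pool.Agent.Results.MP_81f5b7_pr.ClassSizes
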