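import Pool.Agent.MP_81f5b7_pr.SQ.All

set_option autoImplicit false

namespace Pool.Agent.Results.MP_81f5b7_pr.FirstRejection

open Pool.Agent.MP_81f5b7_pr.H42

/-- The step of the first rejected pair lies in a window of width `O(sqrt n)` around a centre
`μ n`, and `μ n / n` converges. -/
theorem result : ∃ μ : ℕ → ℝ,
    (∃ c : ℝ, Filter.Tendsto (fun n : ℕ => μ n / n) Filter.atTop (nhds c)) ∧
    ∀ η : ℝ, 0 < η → ∃ A : ℝ, ∀ᶠ n : ℕ in Filter.atTop, 1 - η ≤
      prob fun π : Scan n =>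
        ∃ t : ℕ, FirstRej π t ∧ |(t : ℝ) - μ n| ≤ A * Real.sqrt n :=
  Pool.Agent.MP_81f5b7_pr.SQ.allS

end Pool.Agent.Results.MP_81f5b7_pr.FirstRejection
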