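import Pool.Agent.MP_81f5b7_pr.H66.Final
import Pool.Agent.MP_81f5b7_pr.H66.MAIN
import Pool.Agent.MP_81f5b7_pr.H66.HIT
import Pool.Agent.MP_81f5b7_pr.H4.PATH
import Pool.Agent.MP_81f5b7_pr.H62.STAR
import Pool.Agent.MP_81f5b7_pr.H84.AUT
import Pool.Agent.MP_81f5b7_pr.H73.LAZY
import Pool.Agent.MP_81f5b7_pr.H46.SPR
import Pool.Agent.MP_81f5b7_pr.H60.STEP
import Pool.Agent.MP_81f5b7_pr.H99.TRU
import Pool.Agent.MP_81f5b7_pr.H29.LINK
import Pool.Agent.MP_81f5b7_pr.H16.CONC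
import Pool.Agent.MP_81f5b7_pr.H56.CROSS
import Pool.Agent.MP_81f5b7_pr.H87.GRAPH
import Pool.Agent.MP_81f5b7_pr.H68.LAM
import Pool.Agent.MP_81f5b7_pr.H22.IGN
import Pool.Agent.MP_81f5b7_pr.H36.NMI
import Pool.Agent.MP_81f5b7_pr.H70.REJ
import Pool.Agent.MP_81f5b7_pr.H52.SPD

set_option autoImplicit false

namespace Pool.Agent.Results.MP_81f5b7_pr.PendantStart

open Pool.Agent.MP_81f5b7_pr.H66

/-- The random 3-colourable graph process started from a triangle with `n` pendant vertices, the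
vertex `v` being joined to the triangle vertex `τ n v`. If each triangle vertex gets about a third
of the pendant vertices, the colour classes of the final graph are balanced. -/
theorem result (τ : ∀ n : ℕ, Fin n → Fin 3)
    (hτ : ∀ i : Fin 3, Filter.Tendsto
      (fun n : ℕ => (Nat.card {v : Fin n // τ n v = i} : ℝ) / (n : ℝ)) Filter.atTop (nhds (1 / 3)))
    (ε : ℝ) (hε : 0 < ε) :
    Filter.Tendsto (fun n : ℕ =>
      (Nat.card {σ : Sym2 (Fin 3 ⊕ Fin n) ≃ Fin (Fintype.card (Sym2 (Fin 3 ⊕ Fin n))) //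
        ∃ H : SimpleGraph (Fin 3 ⊕ Fin n),
          (∀ e : Sym2 (Fin 3 ⊕ Fin n), ¬ e.IsDiag →
            (e ∈ H.edgeSet ↔
              (SimpleGraph.fromEdgeSet
                ({f : Sym2 (Fin 3 ⊕ Fin n) | (∃ i j : Fin 3, f = s(Sum.inl i, Sum.inl j)) ∨
                    ∃ v : Fin n, f = s(Sum.inl (τ n v), Sum.inr v)} ∪
                  {f : Sym2 (Fin 3 ⊕ Fin n) | f ∈ H.edgeSet ∧ σ f < σ e} ∪ {e})).Colorable 3)) ∧
          ∃ c : H.Coloring (Fin 3), ∃ i : Fin 3,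
            ((1 : ℝ) / 3 + ε) * ((n : ℝ) + 3) ≤
              (Nat.card {v : Fin 3 ⊕ Fin n // c v = i} : ℝ)} : ℝ) /
      (Nat.card (Sym2 (Fin 3 ⊕ Fin n) ≃ Fin (Fintype.card (Sym2 (Fin 3 ⊕ Fin n)))) : ℝ))
      Filter.atTop (nhds 0) :=
  final (rowMAIN rowNM rowIND rowAUT (rowIGN rowNM rowPATH rowSPR rowREJ) rowSPD
    (rowGROW rowLAM rowHIT) rowSTAR rowHUB
    (rowLAZY rowNM rowSTEP rowTRU rowPRI rowCONC rowCROSS)) rowLINK rowGRAPH τ hτ ε hε

end Pool.Agent.Results.MP_81f5b7_pr.PendantStart
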