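import Pool.Agent.MP_81f5b7_pr.H42.FIN
import Pool.Agent.MP_81f5b7_pr.H42.ANC
import Pool.Agent.MP_81f5b7_pr.H42.BETA
import Pool.Agent.MP_81f5b7_pr.H42.BON
import Pool.Agent.MP_81f5b7_pr.H42.CAV
import Pool.Agent.MP_81f5b7_pr.H42.FM
import Pool.Agent.MP_81f5b7_pr.H42.IGN
import Pool.Agent.MP_81f5b7_pr.H42.LA
import Pool.Agent.MP_81f5b7_pr.H42.LC
import Pool.Agent.MP_81f5b7_pr.H42.LINK
import Pool.Agent.MP_81f5b7_pr.H42.SEM
import Pool.Agent.MP_81f5b7_pr.H42.TRI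
import Pool.Agent.MP_81f5b7_pr.H42.UNI
import Pool.Agent.MP_81f5b7_pr.H42.YY

set_option autoImplicit false

namespace Pool.Agent.Results.MP_81f5b7_pr.SuddenFreezing

open Pool.Agent.MP_81f5b7_pr.H42

/-- A bounded number of steps before the first rejection almost no vertex has a forced partner; a
bounded number of steps after it three sets of linear size are frozen with different colours. -/
theorem result : ∀ η : ℝ, 0 < η → ∃ δ : ℝ, 0 < δ ∧ ∀ ζ : ℝ, 0 < ζ → ∃ K : ℕ,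
    ∀ᶠ n : ℕ in Filter.atTop, 1 - η ≤ prob fun π : Scan n => ∃ t : ℕ, FirstRej π t ∧
      (Nat.card {v : Fin n // Partnered (graph π (t - K)) v} : ℝ) ≤ ζ * n ∧
      Frozen (graph π (t + K)) δ :=
  have hL : RowLAY := rowLAY (rowLC (rowLB rowLA) (rowANC rowLA rowUNI rowBON))
  goalB (rowIGN (rowY rowCAV hL rowBETA) (rowYP rowCAV hL) rowBETA rowFM rowTRI) rowLINK rowSEM

end Pool.Agent.Results.MP_81f5b7_pr.SuddenFreezing
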